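import Pool.Agent.Helper88.GM.Goals
import Pool.Agent.Helper64.RR.TL

/-! # TL: counting in a class with roughness and divisibility conditions, short intervals -/

set_option autoImplicit false

open Finset Filter Topology

open scoped Classical

namespace Pool.Agent.Helper8.GM

open Pool.Agent.Helper88
open Pool.Agent.Helper88.GM
open Pool.Agent.Helper88.PP (pr Rg om Sf SS uu vv ee LA VV QQ XX cost nc dd)
open Pool.Agent.Helper74.PP (sw nu_card crt ap_exists om_lower M_lower)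
open Pool.Agent.Helper64.RR (mem_pr prod_swr sum_pr_le card_pr_le fact_est)

theorem sum_swg (y z a q p : ℕ) (B : Finset ℕ) (hp : p ∈ pr y z) (hq : ¬ p ∣ q) :
    ∑ t ∈ range p, sw y z a q B p t = ((B.image (fun i => i % p)).card : ℝ) := by
  obtain ⟨h1, h2, h3⟩ := mem_pr.1 hp
  rw [← nu_card p a q h3 hq (B.image (fun i => i % p)) ?_]
  · refine Finset.sum_congr rfl fun t _ => ?_
    rw [sw]
    refine if_congr ?_ rfl rfl
    have h4 : ∀ i, p ∣ a + q * t + i ↔ p ∣ a + q * t + i % p := by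
      intro i
      rw [← Nat.modEq_zero_iff_dvd, ← Nat.modEq_zero_iff_dvd]
      have h5 : a + q * t + i % p ≡ a + q * t + i [MOD p] :=
        Nat.ModEq.add_left _ (Nat.mod_modEq _ _)
      exact ⟨fun h => h5.trans h, fun h => h5.symm.trans h⟩
    constructor
    · rintro ⟨_, _, i, hi, hd⟩
      exact ⟨i % p, mem_image_of_mem _ hi, (h4 i).1 hd⟩
    · rintro ⟨j, hj, hd⟩
      obtain ⟨i, hi, rfl⟩ := mem_image.1 hj
      exact ⟨h1, h2, i, hi, (h4 i).2 hd⟩
  · intro i hi j hj hij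
    obtain ⟨i', _, rfl⟩ := mem_image.1 hi
    obtain ⟨j', _, rfl⟩ := mem_image.1 hj
    exact Nat.ModEq.eq_of_lt_of_lt hij (Nat.mod_lt _ h3.pos) (Nat.mod_lt _ h3.pos)

theorem count_eqg (u v Q y z b : ℕ) (B : Finset ℕ) (d : ℕ → ℕ) (huv : u ≤ v) (hb : b < Q)
    (hd : ∀ i ∈ B, 0 < d i) (hc : ∀ i ∈ B, Nat.Coprime Q (d i))
    (hcc : ∀ i ∈ B, ∀ j ∈ B, i ≠ j → Nat.Coprime (d i) (d j)) :
    ∃ (N a : ℕ),
      (((NI u v Q b).filter (fun n => ∀ i ∈ B, d i ∣ n + i ∧ Rg y z (n + i))).card : ℝ) =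
        ∑ t ∈ range N, ∏ p ∈ pr y z, (1 - sw y z a (Q * ∏ i ∈ B, d i) B p t) ∧
      |(N : ℝ) - XI u v Q / ∏ i ∈ B, (d i : ℝ)| ≤ 1 := by
  have hQ : 0 < Q := by omega
  set q := Q * ∏ i ∈ B, d i with hqdef
  have hq0 : 0 < q := Nat.mul_pos hQ (Finset.prod_pos hd)
  obtain ⟨r, hr⟩ := crt Q b hb B d hd hc hcc
  obtain ⟨a, N, hset, hN⟩ := ap_exists u v q r hq0 huv
  refine ⟨N, a, ?_, ?_⟩
  · have h1 : (NI u v Q b).filter (fun n => ∀ i ∈ B, d i ∣ n + i ∧ Rg y z (n + i)) =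
        ((range N).image (fun t => a + q * t)).filter (fun n => ∀ i ∈ B, Rg y z (n + i)) := by
      rw [← hset]
      ext n
      simp only [NI, mem_filter]
      constructor
      · rintro ⟨⟨h1, h2⟩, h3⟩
        exact ⟨⟨h1, (hr n).1 ⟨h2, fun i hi => (h3 i hi).1⟩⟩, fun i hi => (h3 i hi).2⟩
      · rintro ⟨⟨h1, h2⟩, h3⟩
        have h4 := (hr n).2 h2
        exact ⟨⟨h1, h4.1⟩, fun i hi => ⟨h4.2 i hi, h3 i hi⟩⟩
    rw [h1, Finset.card_filter]
    push_cast
    rw [Finset.sum_image]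
    · refine Finset.sum_congr rfl fun t _ => ?_
      rw [prod_swr y z a q B t]
    · intro t _ s _ hts
      have h2 : q * t = q * s := by
        have : a + q * t = a + q * s := hts
        omega
      exact Nat.eq_of_mul_eq_mul_left hq0 h2
  · have h2 : XI u v Q / ∏ i ∈ B, (d i : ℝ) = ((v - u : ℕ) : ℝ) / (q : ℝ) := by
      rw [XI, hqdef]
      push_cast
      rw [div_div]
    rw [h2]
    exact hN

/-- the final estimate -/
theorem final_estg (E k : ℕ) (l P o M N cnt T U La : ℝ) (hE : 2000 ≤ E) (hl : (E : ℝ) ≤ l)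
    (hP0 : 0 ≤ P) (hP1 : P ≤ 1)
    (hM : 1 / 2 * Real.exp (65 / 100 * (E * l)) ≤ M) (hN : |N - M| ≤ 1)
    (hT0 : 0 ≤ T) (hT : T ≤ La) (hLa : La ≤ E / 2000) (ho : Real.exp (-La) ≤ o)
    (hU0 : 0 ≤ U) (hU : 1 + U ≤ Real.exp (2 * l))
    (hcnt : |cnt - N * P| ≤ 2 * N * (T ^ (E / 16 + 1) / (E / 16 + 1).factorial)
      + (1 + U) ^ (E / 16 + 1)) :
    |cnt - M * P| ≤ Real.exp (-(1 / 20 * E)) * (M * o) := by
  have hE' : (2000 : ℝ) ≤ E := by exact_mod_cast hE
  have hl0 : 0 < l := by linarith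
  have hr : (E : ℝ) / 16 ≤ ((E / 16 + 1 : ℕ) : ℝ) := by
    have h1 : E ≤ 16 * (E / 16 + 1) := by omega
    have h2 : (E : ℝ) ≤ 16 * ((E / 16 + 1 : ℕ) : ℝ) := by exact_mod_cast h1
    linarith
  have hr2 : ((E / 16 + 1 : ℕ) : ℝ) ≤ (E : ℝ) / 16 + 1 := by
    have h1 : 16 * (E / 16 + 1) ≤ E + 16 := by omega
    have h2 : 16 * ((E / 16 + 1 : ℕ) : ℝ) ≤ (E : ℝ) + 16 := by exact_mod_cast h1
    linarith
  have hEl : 2000 * l ≤ (E : ℝ) * l := mul_le_mul_of_nonneg_right hE' hl0.le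
  have ho0 : 0 < o := lt_of_lt_of_le (Real.exp_pos _) ho
  have hM1 : 1 ≤ M := by
    refine le_trans ?_ hM
    have := Real.add_one_le_exp (65 / 100 * ((E : ℝ) * l))
    linarith
  rw [abs_le] at hN
  have hN2 : N ≤ 2 * M := by linarith
  have hN0 : 0 ≤ N := by linarith
  -- the first term
  have h1 : T ^ (E / 16 + 1) / (E / 16 + 1).factorial ≤ Real.exp (-((E : ℝ) / 8)) :=
    fact_est T (E / 16 + 1) E hT0 (hT.trans hLa) hr (by positivity)
  have hF0 : 0 ≤ T ^ (E / 16 + 1) / ((E / 16 + 1).factorial : ℝ) := by positivity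
  have h2 : 2 * N * (T ^ (E / 16 + 1) / (E / 16 + 1).factorial) ≤
      4 * M * Real.exp (-((E : ℝ) / 8)) := by
    calc 2 * N * (T ^ (E / 16 + 1) / (E / 16 + 1).factorial)
        ≤ (2 * (2 * M)) * Real.exp (-((E : ℝ) / 8)) := by
          apply mul_le_mul _ h1 hF0 (by positivity)
          linarith
      _ = _ := by ring
  have h3 : 4 * M * Real.exp (-((E : ℝ) / 8)) ≤ 1 / 2 * (Real.exp (-(1 / 20 * E)) * (M * o)) := by
    have h4 : 8 * Real.exp (-((E : ℝ) / 8)) ≤ Real.exp (-(1 / 20 * E)) * Real.exp (-La) := by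
      have h5 : (8 : ℝ) ≤ Real.exp 7 := by
        have := Real.add_one_le_exp (7 : ℝ)
        linarith
      calc 8 * Real.exp (-((E : ℝ) / 8)) ≤ Real.exp 7 * Real.exp (-((E : ℝ) / 8)) :=
            mul_le_mul_of_nonneg_right h5 (Real.exp_pos _).le
        _ = Real.exp (7 + -((E : ℝ) / 8)) := (Real.exp_add _ _).symm
        _ ≤ Real.exp (-(1 / 20 * E) + -La) := Real.exp_le_exp.2 (by linarith)
        _ = _ := Real.exp_add _ _
    have h6 : 8 * Real.exp (-((E : ℝ) / 8)) ≤ Real.exp (-(1 / 20 * E)) * o :=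
      h4.trans (mul_le_mul_of_nonneg_left ho (Real.exp_pos _).le)
    have h7 := mul_le_mul_of_nonneg_left h6 (show 0 ≤ 1 / 2 * M by linarith)
    calc 4 * M * Real.exp (-((E : ℝ) / 8)) = 1 / 2 * M * (8 * Real.exp (-((E : ℝ) / 8))) := by ring
      _ ≤ _ := h7
      _ = _ := by ring
  -- the second term
  have h4 : (1 + U) ^ (E / 16 + 1) ≤ Real.exp ((E : ℝ) / 8 * l + 2 * l) := by
    calc (1 + U) ^ (E / 16 + 1) ≤ Real.exp (2 * l) ^ (E / 16 + 1) :=
          pow_le_pow_left₀ (by linarith) hU _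
      _ = Real.exp (((E / 16 + 1 : ℕ) : ℝ) * (2 * l)) := (Real.exp_nat_mul _ _).symm
      _ ≤ _ := by
        apply Real.exp_le_exp.2
        have := mul_le_mul_of_nonneg_right hr2 (show 0 ≤ 2 * l by linarith)
        linarith
  have h5 : Real.exp ((E : ℝ) / 8 * l + 2 * l) + 1 ≤
      1 / 2 * (Real.exp (-(1 / 20 * E)) * (M * o)) := by
    have h6 : (1 : ℝ) ≤ Real.exp ((E : ℝ) / 8 * l + 2 * l) := Real.one_le_exp (by positivity)
    have h7 : (8 : ℝ) ≤ Real.exp 7 := by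
      have := Real.add_one_le_exp (7 : ℝ)
      linarith
    have h8 : 8 * Real.exp ((E : ℝ) / 8 * l + 2 * l) ≤
        Real.exp (-(1 / 20 * E)) * (Real.exp (65 / 100 * (E * l)) * Real.exp (-La)) := by
      calc 8 * Real.exp ((E : ℝ) / 8 * l + 2 * l)
          ≤ Real.exp 7 * Real.exp ((E : ℝ) / 8 * l + 2 * l) :=
            mul_le_mul_of_nonneg_right h7 (Real.exp_pos _).le
        _ = Real.exp (7 + ((E : ℝ) / 8 * l + 2 * l)) := (Real.exp_add _ _).symm
        _ ≤ Real.exp (-(1 / 20 * E) + (65 / 100 * (E * l) + -La)) :=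
            Real.exp_le_exp.2 (by linarith)
        _ = _ := by rw [Real.exp_add, Real.exp_add]
    have h9 : 1 / 2 * Real.exp (65 / 100 * (E * l)) * Real.exp (-La) ≤ M * o :=
      mul_le_mul hM ho (Real.exp_pos _).le (by linarith)
    have h10 := mul_le_mul_of_nonneg_left h9 (Real.exp_pos (-(1 / 20 * (E : ℝ)))).le
    linarith
  have hNM : |N * P - M * P| ≤ 1 := by
    rw [← sub_mul, abs_mul, abs_of_nonneg hP0]
    have h1 : |N - M| ≤ 1 := abs_le.2 hN
    calc |N - M| * P ≤ 1 * 1 := mul_le_mul h1 hP1 hP0 (by norm_num)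
      _ = 1 := one_mul 1
  have htri : |cnt - M * P| ≤ |cnt - N * P| + |N * P - M * P| := by
    calc |cnt - M * P| = |(cnt - N * P) + (N * P - M * P)| := by
          congr 1; ring
      _ ≤ _ := abs_add_le _ _
  linarith

theorem thrg (c2 : ℝ) : ∃ E0 : ℕ, ∀ E : ℕ, E0 ≤ E → 2000 ≤ E ∧
    ∀ w : ℝ, 0 ≤ w → w ^ 3 ≤ E → ∀ k : ℕ, k ^ 2 ≤ E →
      (k : ℝ) * (Real.log c2 + w) ≤ E / 2000 := by
  obtain ⟨n, hn⟩ := exists_nat_ge (16000000 * Real.log c2 ^ 2)
  refine ⟨max n (16000000 ^ 3), fun E hE => ?_⟩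
  have h1 : n ≤ E := le_trans (le_max_left _ _) hE
  have h2 : 16000000 ^ 3 ≤ E := le_trans (le_max_right _ _) hE
  have h1' : (n : ℝ) ≤ E := by exact_mod_cast h1
  have h2' : (16000000 : ℝ) ^ 3 ≤ E := by exact_mod_cast h2
  refine ⟨le_trans (by norm_num) h2, fun w hw0 hw k hk => ?_⟩
  have hk' : (k : ℝ) ^ 2 ≤ E := by exact_mod_cast hk
  have h3 : 16000000 * w ^ 2 ≤ E := by
    rcases le_or_gt (16000000 : ℝ) w with h | h
    · calc 16000000 * w ^ 2 ≤ w * w ^ 2 := mul_le_mul_of_nonneg_right h (sq_nonneg _)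
        _ = w ^ 3 := by ring
        _ ≤ E := hw
    · have h4 : w ^ 2 ≤ (16000000 : ℝ) ^ 2 := pow_le_pow_left₀ hw0 h.le 2
      calc 16000000 * w ^ 2 ≤ 16000000 * (16000000 : ℝ) ^ 2 := by linarith
        _ = (16000000 : ℝ) ^ 3 := by ring
        _ ≤ E := h2'
  have h4 : (Real.log c2 + w) ^ 2 ≤ E / 4000000 := by
    have h5 : (Real.log c2 + w) ^ 2 ≤ 2 * Real.log c2 ^ 2 + 2 * w ^ 2 := by
      have := sq_nonneg (Real.log c2 - w)
      linarith [sq_nonneg (Real.log c2 - w),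
        (by ring : (Real.log c2 + w) ^ 2 + (Real.log c2 - w) ^ 2 =
          2 * Real.log c2 ^ 2 + 2 * w ^ 2)]
    linarith
  have h5 : ((k : ℝ) * (Real.log c2 + w)) ^ 2 ≤ ((E : ℝ) / 2000) ^ 2 := by
    rw [mul_pow]
    calc (k : ℝ) ^ 2 * (Real.log c2 + w) ^ 2 ≤ E * (E / 4000000) :=
          mul_le_mul hk' h4 (sq_nonneg _) (Nat.cast_nonneg _)
      _ = _ := by ring
  exact le_of_abs_le (abs_le_of_sq_le_sq h5 (by positivity))

theorem XX_le_XI {x u v Q : ℕ} (hQ0 : 0 < Q) (hQ : Q ∣ QQ x) (hx : x ≤ 2 * (v - u)) :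
    XX x ≤ XI u v Q := by
  have h1 : x - x / 2 ≤ v - u := by omega
  have h2 : ((x - x / 2 : ℕ) : ℝ) ≤ ((v - u : ℕ) : ℝ) := by exact_mod_cast h1
  have h3 : Q ≤ QQ x := Nat.le_of_dvd (primorial_pos _) hQ
  have h4 : (Q : ℝ) ≤ QQ x := by exact_mod_cast h3
  have h5 : (0 : ℝ) < Q := by exact_mod_cast hQ0
  rw [XX, XI]
  exact div_le_div₀ (Nat.cast_nonneg _) h2 h5 h4

theorem tl (hBO : RR.StmtBO) : StmtTL := by
  obtain ⟨c2, hc2, hom⟩ := om_lower
  obtain ⟨E0, hE0⟩ := thrg c2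
  refine ⟨1 / 20, by norm_num, E0, fun E z x y hE hSr u v Q b hIn B hBz hBk d hd hdD => ?_⟩
  obtain ⟨hE2, hE4⟩ := hE0 E hE
  obtain ⟨hz1, hx1, hx2, hy1, hy2, hL3⟩ := hSr
  obtain ⟨hQd, hb, hxuv⟩ := hIn
  have hQ0 : 0 < Q := by omega
  have hE' : (2000 : ℝ) ≤ E := by exact_mod_cast hE2
  have hz0 : (0 : ℝ) < z := lt_of_lt_of_le (Real.exp_pos _) hz1
  have hzE : (E : ℝ) + 1 ≤ z := (Real.add_one_le_exp (E : ℝ)).trans hz1
  have hz3 : 3 ≤ z := by
    have : (3 : ℝ) ≤ z := by linarith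
    exact_mod_cast this
  set l := Real.log (z : ℝ) with hl
  have hl1 : (E : ℝ) ≤ l := by
    rw [hl, Real.le_log_iff_exp_le hz0]
    exact hz1
  have hl3 : 3 ≤ l := by linarith
  have hxz : (z : ℝ) ^ E ≤ x := by exact_mod_cast hx1
  have hx0 : (0 : ℝ) < x := lt_of_lt_of_le (by positivity) hxz
  have hx0' : 0 < x := by exact_mod_cast hx0
  have hX : (E : ℝ) * l ≤ Real.log x := by
    rw [hl, ← Real.log_pow]
    exact Real.log_le_log (by positivity) hxz
  have hEE : (E : ℝ) * E ≤ E * l := mul_le_mul_of_nonneg_left hl1 (by linarith)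
  have hEE2 : 2000 * (E : ℝ) ≤ E * E := mul_le_mul_of_nonneg_right hE' (by linarith)
  have hEl : 2000 * l ≤ (E : ℝ) * l := mul_le_mul_of_nonneg_right hE' (by linarith)
  have hX1 : 1 < Real.log x := by linarith
  have hX0 : 0 < Real.log x := by linarith
  have hlX : l ≤ Real.log x := by linarith
  set L2 := Real.log (Real.log x) with hL2
  have hL20 : 0 ≤ L2 := Real.log_nonneg hX1.le
  have hexpL2 : Real.exp L2 = Real.log x := Real.exp_log hX0
  have hL2E : 2 * L2 < E := by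
    by_contra hcon
    push Not at hcon
    have h1 : (1000 : ℝ) ≤ L2 := by linarith
    have h2 : (1000 : ℝ) ^ 2 ≤ L2 ^ 2 := pow_le_pow_left₀ (by norm_num) h1 2
    have h3 : (1000 : ℝ) ^ 2 * L2 ≤ L2 ^ 3 := by
      calc (1000 : ℝ) ^ 2 * L2 ≤ L2 ^ 2 * L2 := mul_le_mul_of_nonneg_right h2 hL20
        _ = _ := by ring
    linarith
  have hyE : (E : ℝ) * E ≤ y := by linarith
  have hyz : (y : ℝ) < z := by
    calc (y : ℝ) ≤ Real.log x ^ 2 := hy2
      _ = Real.exp (2 * L2) := by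
        rw [← hexpL2, ← Real.exp_nat_mul]
        norm_num
      _ < Real.exp E := Real.exp_lt_exp.2 hL2E
      _ ≤ z := hz1
  have hyz' : y < z := by exact_mod_cast hyz
  have hkE : B.card ≤ E := le_trans (Nat.le_self_pow (by norm_num) _) hBk
  have hpQ : ∀ p : ℕ, p.Prime → p ∣ Q → p ≤ y := by
    intro p hp hpd
    have h1 := (Nat.Prime.dvd_primorial_iff hp).1 (hpd.trans hQd)
    have h2 : (⌊Real.log x / 20⌋₊ : ℝ) ≤ Real.log x / 20 := Nat.floor_le (by positivity)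
    have h3 : (p : ℝ) ≤ (⌊Real.log x / 20⌋₊ : ℝ) := by exact_mod_cast h1
    have h4 : (p : ℝ) ≤ y := by linarith
    exact_mod_cast h4
  constructor
  · intro hcc
    have hd0 : ∀ i ∈ B, 0 < d i := fun i hi => Nat.pos_of_ne_zero (hd i hi).1.ne_zero
    have hc : ∀ i ∈ B, Nat.Coprime Q (d i) := by
      intro i hi
      by_contra hcon
      obtain ⟨p, hp, h1, h2⟩ := Nat.Prime.not_coprime_iff_dvd.1 hcon
      have h3 := hpQ p hp h1
      have h4 := (hd i hi).2 p hp h2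
      omega
    have hq : ∀ p : ℕ, p.Prime → y < p → p ≤ z → ¬ p ∣ Q * ∏ i ∈ B, d i := by
      intro p hp hyp hpz hdv
      rcases (Nat.Prime.dvd_mul hp).1 hdv with h | h
      · have := hpQ p hp h
        omega
      · obtain ⟨i, hi, h2⟩ := (Nat.Prime.prime hp).exists_mem_finset_dvd h
        have h4 := (hd i hi).2 p hp h2
        omega
    have huv : u ≤ v := by omega
    obtain ⟨N, a, hcnt, hN⟩ := count_eqg u v Q y z b B d huv hb hd0 hc hcc
    set q := Q * ∏ i ∈ B, d i with hqdef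
    set k := B.card with hk
    have hnu : ∀ p ∈ pr y z, ∑ t ∈ range p, sw y z a q B p t =
        ((B.image (fun i => i % p)).card : ℝ) := by
      intro p hp
      obtain ⟨h1, h2, h3⟩ := mem_pr.1 hp
      exact sum_swg y z a q p B hp (hq p h3 h1 h2)
    have hnu0 : ∀ p ∈ pr y z, (0 : ℝ) ≤ ((B.image (fun i => i % p)).card : ℝ) := fun p _ =>
      Nat.cast_nonneg _
    have hnuk : ∀ p ∈ pr y z, ((B.image (fun i => i % p)).card : ℝ) ≤ k := fun p _ => by
      exact_mod_cast card_image_le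
    have hnup : ∀ p ∈ pr y z, ((B.image (fun i => i % p)).card : ℝ) / p ≤ 1 := by
      intro p hp
      obtain ⟨h1, h2, h3⟩ := mem_pr.1 hp
      have h4 : (B.image (fun i => i % p)).card ≤ p := by
        calc (B.image (fun i => i % p)).card ≤ (range p).card := by
              apply card_le_card
              intro t ht
              obtain ⟨i, _, rfl⟩ := mem_image.1 ht
              exact mem_range.2 (Nat.mod_lt _ h3.pos)
          _ = p := card_range p
      have h5 : (0 : ℝ) < p := by exact_mod_cast h3.pos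
      rw [div_le_one h5]
      exact_mod_cast h4
    have hBOw := hBO (pr y z) (sw y z a q B) (E / 16) N (fun p hp => (mem_pr.1 hp).2.2)
      (fun p _ t => by
        rw [sw]
        split_ifs <;> norm_num)
      (fun p _ t => by
        rw [sw, sw]
        refine if_congr ?_ rfl rfl
        have h : ∀ i, p ∣ a + q * (t + p) + i ↔ p ∣ a + q * t + i := fun i => by
          rw [show a + q * (t + p) + i = (a + q * t + i) + q * p by ring]
          exact (Nat.dvd_add_left (dvd_mul_left p q))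
        simp only [h])
    rw [← hcnt] at hBOw
    have e1 : ∏ p ∈ pr y z, (1 - (∑ t ∈ range p, sw y z a q B p t) / p) = gB y z B := by
      rw [gB]
      exact Finset.prod_congr rfl fun p hp => by rw [hnu p hp]
    have e2 : ∑ p ∈ pr y z, (∑ t ∈ range p, sw y z a q B p t) / p ≤
        k * ∑ p ∈ pr y z, 1 / (p : ℝ) := by
      rw [Finset.mul_sum]
      refine Finset.sum_le_sum fun p hp => ?_
      rw [hnu p hp, mul_one_div]
      exact div_le_div_of_nonneg_right (hnuk p hp) (Nat.cast_nonneg _)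
    have e20 : 0 ≤ ∑ p ∈ pr y z, (∑ t ∈ range p, sw y z a q B p t) / p := by
      refine Finset.sum_nonneg fun p hp => ?_
      rw [hnu p hp]
      positivity
    have e3 : ∑ p ∈ pr y z, ∑ t ∈ range p, sw y z a q B p t ≤ (pr y z).card * k := by
      rw [Finset.sum_congr rfl hnu, ← nsmul_eq_mul, ← Finset.sum_const]
      exact Finset.sum_le_sum fun p hp => hnuk p hp
    have e30 : 0 ≤ ∑ p ∈ pr y z, ∑ t ∈ range p, sw y z a q B p t := by
      rw [Finset.sum_congr rfl hnu]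
      exact Finset.sum_nonneg fun p hp => hnu0 p hp
    rw [e1] at hBOw
    have hgB0 : 0 ≤ gB y z B := Finset.prod_nonneg fun p hp => by linarith [hnup p hp]
    have hgB1 : gB y z B ≤ 1 := by
      refine Finset.prod_le_one (fun p hp => by linarith [hnup p hp]) fun p hp => ?_
      have : 0 ≤ ((B.image (fun i => i % p)).card : ℝ) / p := by positivity
      linarith
    have hprod : ∏ i ∈ B, (om y z / (d i : ℝ)) = om y z ^ k / ∏ i ∈ B, (d i : ℝ) := by
      rw [Finset.prod_div_distrib, Finset.prod_const]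
    have hprod1 : ∏ i ∈ B, (1 / (d i : ℝ)) = 1 / ∏ i ∈ B, (d i : ℝ) := by
      rw [Finset.prod_div_distrib, Finset.prod_const_one]
    have hDpos : 0 < ∏ i ∈ B, (d i : ℝ) := Finset.prod_pos fun i hi => by exact_mod_cast hd0 i hi
    have hD : ∏ i ∈ B, (d i : ℝ) ≤ (z : ℝ) ^ (E / 4) := by exact_mod_cast hdD
    have hgoal : XI u v Q * ∏ i ∈ B, (om y z / (d i : ℝ)) =
        XI u v Q / (∏ i ∈ B, (d i : ℝ)) * om y z ^ k := by
      rw [hprod]
      ring
    have hgoal1 : XI u v Q * (gB y z B * ∏ i ∈ B, (1 / (d i : ℝ))) =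
        XI u v Q / (∏ i ∈ B, (d i : ℝ)) * gB y z B := by
      rw [hprod1]
      ring
    rw [hgoal, hgoal1]
    have hzz := hom y z (by omega)
    have hom0 : 0 < om y z := lt_of_lt_of_le (by positivity) hzz.1
    -- the logarithm of the density
    have hW1 : Real.exp (-(Real.log c2 + L2)) ≤ om y z := by
      rw [Real.exp_neg, Real.exp_add, Real.exp_log hc2, hexpL2]
      refine le_trans ?_ hzz.1
      rw [← one_div]
      apply one_div_le_one_div_of_le (by positivity)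
      exact mul_le_mul_of_nonneg_left hlX hc2.le
    have hT1 : ∑ p ∈ pr y z, 1 / (p : ℝ) ≤ Real.log c2 + L2 := by
      have h1 := hW1.trans (sum_pr_le y z)
      have h2 := Real.exp_le_exp.1 h1
      linarith
    have hM : 1 / 2 * Real.exp (65 / 100 * (E * l)) ≤ XI u v Q / ∏ i ∈ B, (d i : ℝ) :=
      (M_lower E z x hE2 hl3 hx1 _ hDpos hD).trans
        (div_le_div_of_nonneg_right (XX_le_XI hQ0 hQd hxuv) hDpos.le)
    refine final_estg E k l (gB y z B) (om y z ^ k) (XI u v Q / ∏ i ∈ B, (d i : ℝ)) N _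
      (∑ p ∈ pr y z, (∑ t ∈ range p, sw y z a q B p t) / p)
      (∑ p ∈ pr y z, ∑ t ∈ range p, sw y z a q B p t) (k * (Real.log c2 + L2)) hE2 hl1
      hgB0 hgB1 hM hN e20
      (e2.trans (mul_le_mul_of_nonneg_left hT1 (Nat.cast_nonneg _)))
      (hE4 L2 hL20 hL3 k hBk) ?_ e30 ?_ hBOw
    · calc Real.exp (-(k * (Real.log c2 + L2))) = Real.exp (-(Real.log c2 + L2)) ^ k := by
            rw [← Real.exp_nat_mul]
            congr 1
            ring
        _ ≤ _ := pow_le_pow_left₀ (Real.exp_pos _).le hW1 k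
    · have h1 : ((pr y z).card : ℝ) ≤ z := by exact_mod_cast card_pr_le y z
      have h2 : (k : ℝ) ≤ E := by exact_mod_cast hkE
      have h3 : ((pr y z).card : ℝ) * k ≤ z * E :=
        mul_le_mul h1 h2 (Nat.cast_nonneg _) hz0.le
      have h4 : Real.exp (2 * l) = (z : ℝ) * z := by
        rw [two_mul, Real.exp_add, hl, Real.exp_log hz0]
      rw [h4]
      have h5 := mul_le_mul_of_nonneg_left hzE hz0.le
      have h6 : (1 : ℝ) ≤ z := by linarith
      linarith
  · intro hcc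
    push Not at hcc
    obtain ⟨i, hi, j, hj, hij, hcop⟩ := hcc
    obtain ⟨p, hp, h1, h2⟩ := Nat.Prime.not_coprime_iff_dvd.1 hcop
    have hzp := (hd i hi).2 p hp h1
    rw [Finset.card_eq_zero, Finset.filter_eq_empty_iff]
    intro n _ hn
    have h3 : p ∣ n + i := h1.trans (hn i hi).1
    have h4 : p ∣ n + j := h2.trans (hn j hj).1
    have hi1 := mem_Icc.1 (hBz hi)
    have hj1 := mem_Icc.1 (hBz hj)
    rcases lt_or_gt_of_ne hij with h | h
    · have h5 : p ∣ (n + j) - (n + i) := Nat.dvd_sub h4 h3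
      have h6 := Nat.le_of_dvd (by omega) h5
      omega
    · have h5 : p ∣ (n + i) - (n + j) := Nat.dvd_sub h3 h4
      have h6 := Nat.le_of_dvd (by omega) h5
      omega

end Pool.Agent.Helper8.GM
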